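import Pool.Agent.Y489.GE.Stm2

set_option autoImplicit false

/-!
# Project GE: extension of a cover from a cut (job GV-THICK)
-/

open Set Topology

noncomputable section

namespace Pool.Agent.Y438.GE

open Pool.Agent.Y489.GE

theorem cov_of_fintype (X : Type) [MetricSpace X] (w : ℝ) (n : ℕ) (ι : Type) [Fintype ι]
    (U : ι → Set X) (h1 : ∀ i, IsOpen (U i)) (h2 : ∀ i, ∀ x ∈ U i, ∀ y ∈ U i, dist x y ≤ w)
    (h3 : ∀ x, ∃ i, x ∈ U i) (h4 : ∀ x, Nat.card {i : ι // x ∈ U i} ≤ n) : Cov X w n := by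
  let e : ι ≃ Fin (Fintype.card ι) := Fintype.equivFin ι
  refine ⟨Fintype.card ι, fun i => U (e.symm i), fun i => h1 _, fun i => h2 _, fun x => ?_,
    fun x => ?_⟩
  · obtain ⟨i, hi⟩ := h3 x
    exact ⟨e i, by simpa using hi⟩
  · have e2 : {i : Fin (Fintype.card ι) // x ∈ U (e.symm i)} ≃ {i : ι // x ∈ U i} :=
      Equiv.subtypeEquiv e.symm fun i => Iff.rfl
    rw [Nat.card_congr e2]
    exact h4 x

theorem t_THICK : S_THICK := by
  intro X _ _ r m Y hr hcut hcov
  obtain ⟨hYc, N', O, hO1, hO2, hO3, hO4⟩ := hcut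
  obtain ⟨N, U, hU1, hU2, hU3, hU4⟩ := hcov
  have hone : ∀ x : X, Nat.card {j : Fin N' // x ∈ O j} ≤ 1 := by
    intro x
    have : Subsingleton {j : Fin N' // x ∈ O j} := by
      refine ⟨fun a b => ?_⟩
      by_contra hne
      have hne' : a.1 ≠ b.1 := fun h => hne (Subtype.ext h)
      exact (Set.disjoint_left.1 (hO3 _ _ hne')) a.2 b.2
    exact Finite.card_le_one_iff_subsingleton.2 this
  rcases Y.eq_empty_or_nonempty with hY | hY
  · refine cov_of_fintype X r (m + 1) (Fin N') O hO1 hO2 (fun x => ?_) fun x =>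
      (hone x).trans (by omega)
    have : x ∈ Yᶜ := by rw [hY]; simp
    rw [hO4] at this
    exact mem_iUnion.1 this
  have hYk : IsCompact Y := hYc.isCompact
  have hnear : ∀ x : X, ∃ y ∈ Y, Metric.infDist x Y = dist x y := fun x =>
    hYk.exists_infDist_eq_dist hY x
  choose ny hny1 hny2 using hnear
  let V : Fin N → Set X := fun i => Subtype.val '' U i
  let C : Fin N → Set X := fun i => Y \ V i
  have hCc : ∀ i, IsClosed (C i) := by
    intro i
    have e : C i = Subtype.val '' (U i)ᶜ := by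
      ext z
      constructor
      · rintro ⟨hz, hz2⟩
        exact ⟨⟨z, hz⟩, fun h => hz2 ⟨⟨z, hz⟩, h, rfl⟩, rfl⟩
      · rintro ⟨w, hw, rfl⟩
        refine ⟨w.2, ?_⟩
        rintro ⟨w', hw', he⟩
        exact hw ((Subtype.ext he : w' = w) ▸ hw')
    rw [e]
    exact hYc.isClosedEmbedding_subtypeVal.isClosedMap _ (hU1 i).isClosed_compl
  let U' : Fin N → Set X := fun i =>
    {x | Metric.infDist x Y < r / 4 ∧ (C i = ∅ ∨ Metric.infDist x Y < Metric.infDist x (C i))}
  have hU'o : ∀ i, IsOpen (U' i) := by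
    intro i
    have o1 : IsOpen {x : X | Metric.infDist x Y < r / 4} :=
      isOpen_lt (Metric.continuous_infDist_pt Y) continuous_const
    have o2 : IsOpen {x : X | C i = ∅ ∨ Metric.infDist x Y < Metric.infDist x (C i)} := by
      by_cases hC : C i = ∅
      · have : {x : X | C i = ∅ ∨ Metric.infDist x Y < Metric.infDist x (C i)} = univ := by
          ext x
          simp [hC]
        rw [this]
        exact isOpen_univ
      · have : {x : X | C i = ∅ ∨ Metric.infDist x Y < Metric.infDist x (C i)} =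
            {x : X | Metric.infDist x Y < Metric.infDist x (C i)} := by
          ext x
          simp [hC]
        rw [this]
        exact isOpen_lt (Metric.continuous_infDist_pt Y) (Metric.continuous_infDist_pt (C i))
    exact o1.inter o2
  have hnV : ∀ i x, x ∈ U' i → ny x ∈ V i := by
    rintro i x ⟨-, h2⟩
    by_contra hn
    have hmem : ny x ∈ C i := ⟨hny1 x, hn⟩
    rcases h2 with h2 | h2
    · rw [h2] at hmem
      exact hmem
    · have h3 : Metric.infDist x (C i) ≤ dist x (ny x) := Metric.infDist_le_dist_of_mem hmem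
      rw [hny2 x] at h2
      linarith
  have hYU : ∀ y : ↥Y, ∀ i, y ∈ U i → (y : X) ∈ U' i := by
    intro y i hi
    have h0 : Metric.infDist (y : X) Y = 0 := Metric.infDist_zero_of_mem y.2
    refine ⟨by rw [h0]; positivity, ?_⟩
    by_cases hC : C i = ∅
    · exact Or.inl hC
    · refine Or.inr ?_
      rw [h0]
      refine ((hCc i).notMem_iff_infDist_pos (nonempty_iff_ne_empty.2 hC)).1 ?_
      rintro ⟨-, h⟩
      exact h ⟨y, hi, rfl⟩
  refine cov_of_fintype X r (m + 1) (Fin N ⊕ Fin N') (Sum.elim U' O) ?_ ?_ ?_ ?_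
  · rintro (i | i)
    · exact hU'o i
    · exact hO1 i
  · rintro (i | i) x hx y hy
    · have hx' : x ∈ U' i := hx
      have hy' : y ∈ U' i := hy
      obtain ⟨a, ha, ha2⟩ := hnV i x hx'
      obtain ⟨b, hb, hb2⟩ := hnV i y hy'
      have h1 := hU2 i a ha b hb
      have h2 : dist (ny x) (ny y) ≤ r / 4 := by
        rw [← ha2, ← hb2]
        exact h1
      have h3 : dist x (ny x) < r / 4 := by
        rw [← hny2]
        exact hx'.1
      have h4 : dist y (ny y) < r / 4 := by
        rw [← hny2]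
        exact hy'.1
      have h5 : dist x y ≤ dist x (ny x) + dist (ny x) (ny y) + dist (ny y) y :=
        dist_triangle4 _ _ _ _
      rw [dist_comm (ny y) y] at h5
      linarith
    · exact hO2 i x hx y hy
  · intro x
    by_cases hx : x ∈ Y
    · obtain ⟨i, hi⟩ := hU3 ⟨x, hx⟩
      exact ⟨Sum.inl i, hYU ⟨x, hx⟩ i hi⟩
    · have : x ∈ Yᶜ := hx
      rw [hO4] at this
      obtain ⟨j, hj⟩ := mem_iUnion.1 this
      exact ⟨Sum.inr j, hj⟩
  · intro x
    have e : {i : Fin N ⊕ Fin N' // x ∈ (Sum.elim U' O : Fin N ⊕ Fin N' → Set X) i} ≃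
        {i : Fin N // x ∈ U' i} ⊕ {j : Fin N' // x ∈ O j} := Equiv.subtypeSum
    rw [Nat.card_congr e, Nat.card_sum]
    refine Nat.add_le_add ?_ (hone x)
    refine le_trans ?_ (hU4 ⟨ny x, hny1 x⟩)
    refine Nat.card_le_card_of_injective (fun i : {i : Fin N // x ∈ U' i} =>
      (⟨i.1, by
        obtain ⟨a, ha, ha2⟩ := hnV i.1 x i.2
        have : a = ⟨ny x, hny1 x⟩ := Subtype.ext ha2
        rw [← this]
        exact ha⟩ : {i : Fin N // (⟨ny x, hny1 x⟩ : ↥Y) ∈ U i})) ?_
    intro a b hab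
    exact Subtype.ext (congrArg (fun z : {i : Fin N // (⟨ny x, hny1 x⟩ : ↥Y) ∈ U i} => z.1) hab)

end Pool.Agent.Y438.GE
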